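import Pool.Agent.J4.H99.QF.Defs

/-!
# An obstruction to the exactness of the Fadell-Neuwirth sequence
-/

set_option autoImplicit false

open Topology Topology.Homotopy unitInterval Set

namespace Pool.Agent.J4.H99.QF

variable {H : Type} [Group H] {V : Type} [TopologicalSpace V] [MulAction H V]
  [ContinuousConstSMul H V] {S : Type} [TopologicalSpace S] [MulAction H S] {n : ℕ}

theorem quotientCovering (hS : IsQuotientCoveringMap (Quotient.mk (MulAction.orbitRel H S)) H) :
    IsQuotientCoveringMap (Quotient.mk (MulAction.orbitRel (Fin n → H) ((Fin n → S) × Conf H V n)))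
      (Fin n → H) where
  toIsQuotientMap := isQuotientMap_quotient_mk'
  continuous_const_smul g := by
    have := hS.continuous_const_smul
    refine Continuous.prodMk ?_ ?_
    · refine continuous_pi fun i => ?_
      exact (hS.continuous_const_smul (g i)).comp ((continuous_apply i).comp continuous_fst)
    · refine continuous_induced_rng.2 (continuous_pi fun i => ?_)
      exact (continuous_const_smul (g i)).comp
        ((continuous_apply i).comp ((Conf.continuous_val H V n).comp continuous_snd))
  apply_eq_iff_mem_orbit {e₁ e₂} := by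
    rw [Quotient.eq]
    rfl
  disjoint e := by
    choose U hU hU' using fun i => hS.disjoint (e.1 i)
    refine ⟨{z | ∀ i, z.1 i ∈ U i}, ?_, ?_⟩
    · have h1 : {z : (Fin n → S) × Conf H V n | ∀ i, z.1 i ∈ U i} =
          ⋂ i, (fun z : (Fin n → S) × Conf H V n => z.1 i) ⁻¹' U i := by
        ext z; simp
      rw [h1, Filter.iInter_mem]
      intro i
      exact ((continuous_apply i).comp continuous_fst).continuousAt.preimage_mem_nhds (hU i)
    · rintro g ⟨_, ⟨z, hz, rfl⟩, hz'⟩
      funext i
      exact hU' i (g i) ⟨_, ⟨z.1 i, hz i, rfl⟩, hz' i⟩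

/-- The projection to the classifying space of `PB_n(M)`. -/
theorem covering (hS : IsQuotientCoveringMap (Quotient.mk (MulAction.orbitRel H S)) H) :
    IsCoveringMap (fun z : (Fin n → S) × Conf H V n => (BConf.mk z.1 z.2 : BConf H V S n)) :=
  (quotientCovering hS).isCoveringMap

omit [ContinuousConstSMul H V] in
theorem continuous_mk : Continuous fun z : (Fin n → S) × Conf H V n =>
    (BConf.mk z.1 z.2 : BConf H V S n) := continuous_quotient_mk'

omit [ContinuousConstSMul H V] in
theorem Conf.continuous_init : Continuous (Conf.init (H := H) (V := V) (n := n)) := by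
  refine continuous_induced_rng.2 (continuous_pi fun i => ?_)
  exact (continuous_apply i.castSucc).comp (Conf.continuous_val H V (n + 1))

theorem not_exact (hS : IsQuotientCoveringMap (Quotient.mk (MulAction.orbitRel H S)) H)
    (y : Conf H V (n + 1)) (v : Fib y) (s : Fin (n + 1) → S) (t : S) (q : ℕ)
    (J : C(I^(Fin (q + 1)), Conf H V (n + 2)))
    (hJ : ∀ z ∈ Cube.boundary (Fin (q + 1)), J z = y.snoc v)
    (ha : ContinuousMap.HomotopicRel (ContinuousMap.comp ⟨Conf.init, Conf.continuous_init⟩ J)
      (ContinuousMap.const _ y) (Cube.boundary (Fin (q + 1))))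
    (hb : ∀ J' : C(I^(Fin (q + 1)), Conf H V (n + 2)),
      J.HomotopicRel J' (Cube.boundary (Fin (q + 1))) → (∀ z, (J' z).1 0 = y.1 0) → False)
    (horb : IsTotallyDisconnected {x : V | ∃ h : H, x = h • y.1 0}) :
    ¬ ExactSequence (incl s y) forget (incl_mk s y t v) (forget_mk s y t v) := by
  rintro ⟨δ, -, h2, -, -⟩
  let f₀ : C(I^(Fin (q + 1)), (Fin (n + 2) → S) × Conf H V (n + 2)) :=
    ⟨fun z => (Fin.snoc (α := fun _ => S) s t, J z), continuous_const.prodMk J.continuous⟩
  let p : C((Fin (n + 2) → S) × Conf H V (n + 2), BConf H V S (n + 2)) :=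
    ⟨fun z => BConf.mk z.1 z.2, continuous_mk⟩
  let L : Ω^ (Fin (q + 1)) (BConf H V S (n + 2))
      (BConf.mk (Fin.snoc (α := fun _ => S) s t) (y.snoc v)) :=
    ⟨p.comp f₀, fun z hz => by
      change BConf.mk _ (J z) = _
      rw [hJ z hz]
      rfl⟩
  -- the class of `L` is in the kernel of `forget`
  have hL1 : piMap (q + 1) forget (forget_mk s y t v) (⟦L⟧ : π_ (q + 1) _ _) = 1 := by
    rw [HomotopyGroup.one_def]
    refine Quotient.sound ?_
    change ContinuousMap.HomotopicRel _ _ _
    have h3 := ha.comp_continuousMap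
      (⟨fun x => BConf.mk s x, continuous_mk.comp (continuous_const.prodMk continuous_id)⟩ :
        C(Conf H V (n + 1), BConf H V S (n + 1)))
    refine (Eq.mpr ?_ h3)
    congr 1
    ext z
    change BConf.mk (fun i : Fin (n + 1) => (Fin.snoc (α := fun _ => S) s t i.castSucc : S))
      (J z).init = BConf.mk s (J z).init
    congr 1
    funext i
    rw [Fin.snoc_castSucc]
  obtain ⟨c, hc⟩ := (h2 q _).1 hL1
  induction c using Quotient.inductionOn with | _ g =>
  have h3 : ContinuousMap.HomotopicRel L.1 ((incl s y).comp g.1)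
      (Cube.boundary (Fin (q + 1))) := (Quotient.exact hc).symm
  obtain ⟨F⟩ := h3
  have cov := covering (n := n + 2) (V := V) hS
  have hF0 : ∀ z, F (0, z) = p (f₀ z) := fun z => F.apply_zero z
  let F' : C(I × (I^(Fin (q + 1))), BConf H V S (n + 2)) := F.toContinuousMap
  let G := cov.liftHomotopy F' f₀ hF0
  have hG : ∀ τ z, BConf.mk (G (τ, z)).1 (G (τ, z)).2 = F (τ, z) := fun τ z =>
    congrFun (cov.liftHomotopy_lifts F' f₀ hF0) (τ, z)
  have hG0 : ∀ z, G (0, z) = f₀ z := cov.liftHomotopy_zero F' f₀ hF0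
  have hGb : ∀ τ, ∀ z ∈ Cube.boundary (Fin (q + 1)), G (τ, z) = f₀ z := by
    intro τ z hz
    have h4 := cov.const_of_comp (g := fun τ : I => G (τ, z))
      (G.continuous.comp (Continuous.prodMk continuous_id continuous_const))
      (fun a b => by
        rw [hG, hG, F.eq_fst a hz, F.eq_fst b hz]) τ 0
    rw [← hG0 z]
    exact h4
  -- the end of the lifted homotopy
  let J' : C(I^(Fin (q + 1)), Conf H V (n + 2)) :=
    ⟨fun z => (G (1, z)).2, by fun_prop⟩
  refine hb J' ?_ ?_
  · refine ⟨⟨⟨⟨fun z => (G z).2, by fun_prop⟩, fun z => ?_, fun z => rfl⟩, fun τ z hz => ?_⟩⟩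
    · change (G (0, z)).2 = _
      rw [hG0]
      rfl
    · change (G (τ, z)).2 = _
      rw [hGb τ z hz]
      rfl
  · have h5 : ∀ z, (J' z).1 0 ∈ {x : V | ∃ h : H, x = h • y.1 0} := by
      intro z
      have h6 : BConf.mk (G (1, z)).1 (G (1, z)).2 = incl s y (g z) := by
        rw [hG]
        exact F.apply_one z
      obtain ⟨⟨t', v'⟩, hgz⟩ := Quotient.exists_rep (g z)
      have h7 : g z = BFib.mk t' v' := hgz.symm
      rw [h7, incl_mk] at h6
      obtain ⟨h, hh⟩ := Quotient.exact h6
      refine ⟨h 0, ?_⟩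
      have h8 := congrArg (fun x : (Fin (n + 2) → S) × Conf H V (n + 2) => x.2.1 0) hh
      change h 0 • (Fin.snoc (α := fun _ => V) y.1 v'.1 (Fin.castSucc 0) : V) = (J' z).1 0 at h8
      rw [Fin.snoc_castSucc] at h8
      exact h8.symm
    have h9 : IsPreconnected (range fun z => (J' z).1 0) :=
      isPreconnected_range ((continuous_apply _).comp ((Conf.continuous_val H V _).comp
        J'.continuous))
    have h10 := horb (range fun z => (J' z).1 0) (by rintro _ ⟨z, rfl⟩; exact h5 z) h9
    intro z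
    have hz0 : (fun _ => 0 : I^(Fin (q + 1))) ∈ Cube.boundary (Fin (q + 1)) := ⟨0, Or.inl rfl⟩
    have h11 : (J' z).1 0 = (J' fun _ => 0).1 0 := h10 ⟨z, rfl⟩ ⟨_, rfl⟩
    rw [h11]
    change (G (1, fun _ => 0)).2.1 0 = _
    rw [hGb 1 _ hz0]
    change (J fun _ => 0).1 0 = _
    rw [hJ _ hz0]
    change (Fin.snoc (α := fun _ => V) y.1 v.1 (Fin.castSucc 0) : V) = _
    rw [Fin.snoc_castSucc]

end Pool.Agent.J4.H99.QF
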