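import Mathlib

/-!
# Orbifold configuration spaces and the Fadell-Neuwirth sequence

Let `M = V / H` be a global quotient orbifold, `H` a discrete group acting on the manifold `V`, with
the translation groupoid `H ⋉ V`. The classifying space of a translation groupoid `G ⋉ X` is the
Borel construction `(E G × X) / G`.
-/

set_option autoImplicit false

open Topology Topology.Homotopy unitInterval

namespace Pool.Agent.J4.H99.QF

section homotopy

variable {X Y : Type} [TopologicalSpace X] [TopologicalSpace Y]

/-- The map which a continuous map `f` with `f x = y` induces on generalized loops. -/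
def genMap {N : Type} (f : C(X, Y)) {x : X} {y : Y} (h : f x = y) (p : Ω^ N X x) : Ω^ N Y y :=
  ⟨f.comp p.1, fun z hz => (congrArg f (p.2 z hz)).trans h⟩

/-- The map `f_* : π_q(X, x) → π_q(Y, y)` which a continuous map `f` with `f x = y` induces. -/
def piMap (q : ℕ) (f : C(X, Y)) {x : X} {y : Y} (h : f x = y) : π_ q X x → π_ q Y y :=
  Quotient.map (genMap f h) fun _ _ hab => hab.comp_continuousMap f

/-- For maps `i : F → P` and `f : P → B` with `i x = p` and `f p = b`: there are homomorphisms
`∂ : π_(q+1)(B, b) → π_q(F, x)`, `q ≥ 1`, for which the sequence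
`⋯ → π_(q+1)(B, b) → π_q(F, x) → π_q(P, p) → π_q(B, b) → ⋯ → π_1(P, p) → π_1(B, b) → 1`
is exact. -/
def ExactSequence {F P B : Type} [TopologicalSpace F] [TopologicalSpace P] [TopologicalSpace B]
    (i : C(F, P)) (f : C(P, B)) {x : F} {p : P} {b : B} (hi : i x = p) (hf : f p = b) : Prop :=
  ∃ δ : ∀ q : ℕ, (π_ (q + 2) B b) →* (π_ (q + 1) F x),
    (∀ (q : ℕ) (a : π_ (q + 1) F x), piMap (q + 1) i hi a = 1 ↔ ∃ c, δ q c = a) ∧
    (∀ (q : ℕ) (a : π_ (q + 1) P p),
      piMap (q + 1) f hf a = 1 ↔ ∃ c, piMap (q + 1) i hi c = a) ∧
    (∀ (q : ℕ) (a : π_ (q + 2) B b), δ q a = 1 ↔ ∃ c, piMap (q + 2) f hf c = a) ∧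
    Function.Surjective (piMap 1 f hf)

end homotopy

section orbifold

variable (H : Type) [Group H] (V : Type) [TopologicalSpace V] [MulAction H V]
  (S : Type) [TopologicalSpace S] [MulAction H S] (n : ℕ)

/-- `S` is a model of the universal space `E H` of the discrete group `H`: it is contractible, and
`S → S / H` is the covering map of a free and properly discontinuous action. -/
def IsUniversal : Prop :=
  ContractibleSpace S ∧ IsQuotientCoveringMap (Quotient.mk (MulAction.orbitRel H S)) H

/-- The manifold of all `(x_1, …, x_n)` in `V ^ n` such that the orbits of `x_i` and `x_j` are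
different for `i ≠ j`. Its quotient by `H ^ n` is the orbifold `PB_n(M)`, `M = V / H`. -/
def Conf : Type := {x : Fin n → V // ∀ i j, i ≠ j → ∀ h : H, h • x i ≠ x j}

instance : TopologicalSpace (Conf H V n) :=
  TopologicalSpace.induced (fun x : Conf H V n => x.1) inferInstance

theorem Conf.continuous_val : Continuous fun x : Conf H V n => x.1 := continuous_induced_dom

/-- The coordinatewise action of `H ^ n`. -/
instance : MulAction (Fin n → H) (Conf H V n) where
  smul g x := ⟨fun i => g i • x.1 i, fun i j hij h e => by
    refine x.2 i j hij ((g j)⁻¹ * h * g i) ?_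
    rw [mul_smul, mul_smul, e, inv_smul_smul]⟩
  one_smul x := Subtype.ext (funext fun i => one_smul H (x.1 i))
  mul_smul g h x := Subtype.ext (funext fun i => mul_smul (g i) (h i) (x.1 i))

/-- The classifying space of `PB_n(M)`: the Borel construction `((E H) ^ n × Conf) / H ^ n`. -/
def BConf : Type := MulAction.orbitRel.Quotient (Fin n → H) ((Fin n → S) × Conf H V n)

instance : TopologicalSpace (BConf H V S n) :=
  inferInstanceAs (TopologicalSpace (MulAction.orbitRel.Quotient (Fin n → H)
    ((Fin n → S) × Conf H V n)))

variable {H V n}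

/-- The complement of the orbits of `y_1, …, y_n` in `V`. Its quotient by `H` is the orbifold
`M` minus the points `y_1, …, y_n`, the fibre of `PB_(n+1)(M) → PB_n(M)` over `y`. -/
def Fib (y : Conf H V n) : Type := {v : V // ∀ i, ∀ h : H, h • y.1 i ≠ v}

instance (y : Conf H V n) : TopologicalSpace (Fib y) :=
  TopologicalSpace.induced (fun v : Fib y => v.1) inferInstance

theorem Fib.continuous_val (y : Conf H V n) : Continuous fun v : Fib y => v.1 :=
  continuous_induced_dom

/-- The action of `H` on the fibre. -/
instance (y : Conf H V n) : MulAction H (Fib y) where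
  smul g v := ⟨g • v.1, fun i h e => by
    refine v.2 i (g⁻¹ * h) ?_
    rw [mul_smul, e, inv_smul_smul]⟩
  one_smul v := Subtype.ext (one_smul H v.1)
  mul_smul g h v := Subtype.ext (mul_smul g h v.1)

/-- The classifying space of the fibre: the Borel construction `(E H × Fib y) / H`. -/
def BFib (y : Conf H V n) : Type := MulAction.orbitRel.Quotient H (S × Fib y)

instance (y : Conf H V n) : TopologicalSpace (BFib S y) :=
  inferInstanceAs (TopologicalSpace (MulAction.orbitRel.Quotient H (S × Fib y)))

variable {S}

/-- The point of the classifying space of `PB_n(M)` which is given by `s` and `x`. -/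
def BConf.mk (s : Fin n → S) (x : Conf H V n) : BConf H V S n :=
  Quotient.mk (MulAction.orbitRel (Fin n → H) ((Fin n → S) × Conf H V n)) (s, x)

/-- The point of the classifying space of the fibre which is given by `t` and `v`. -/
def BFib.mk {y : Conf H V n} (t : S) (v : Fib y) : BFib S y :=
  Quotient.mk (MulAction.orbitRel H (S × Fib y)) (t, v)

/-- Forget the last point of a configuration. -/
def Conf.init (x : Conf H V (n + 1)) : Conf H V n :=
  ⟨fun i => x.1 i.castSucc, fun _ _ hij h =>
    x.2 _ _ (fun e => hij (Fin.castSucc_injective n e)) h⟩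

/-- Add the point `v` to the configuration `y`. -/
def Conf.snoc (y : Conf H V n) (v : Fib y) : Conf H V (n + 1) :=
  ⟨Fin.snoc (α := fun _ => V) y.1 v.1, fun i j => by
    refine Fin.lastCases ?_ (fun i => ?_) i <;> refine Fin.lastCases ?_ (fun j => ?_) j
    · intro h; exact absurd rfl h
    · intro _ h e
      rw [Fin.snoc_last, Fin.snoc_castSucc] at e
      exact v.2 j h⁻¹ (by rw [← e, inv_smul_smul])
    · intro _ h
      rw [Fin.snoc_last, Fin.snoc_castSucc]
      exact v.2 i h
    · intro hij h
      rw [Fin.snoc_castSucc, Fin.snoc_castSucc]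
      exact y.2 i j (fun e => hij (e ▸ rfl)) h⟩

theorem continuous_forget_aux : Continuous fun z : (Fin (n + 1) → S) × Conf H V (n + 1) =>
    (BConf.mk (fun i : Fin n => z.1 i.castSucc) z.2.init : BConf H V S n) := by
  refine continuous_quotient_mk'.comp (Continuous.prodMk ?_ ?_)
  · exact continuous_pi fun i => (continuous_apply _).comp continuous_fst
  · refine continuous_induced_rng.2 (continuous_pi fun i => ?_)
    exact (continuous_apply i.castSucc).comp ((Conf.continuous_val H V (n + 1)).comp continuous_snd)

/-- The map `PB_(n+1)(M) → PB_n(M)` on classifying spaces. -/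
def forget : C(BConf H V S (n + 1), BConf H V S n) :=
  ⟨Quotient.lift (fun z => BConf.mk (fun i : Fin n => z.1 i.castSucc) z.2.init) (by
      rintro _ ⟨s, x⟩ ⟨g, rfl⟩
      exact Quotient.sound ⟨fun i => g i.castSucc, rfl⟩),
    continuous_quot_lift _ continuous_forget_aux⟩

theorem continuous_incl_aux (s : Fin n → S) (y : Conf H V n) : Continuous fun z : S × Fib y =>
    (BConf.mk (Fin.snoc (α := fun _ => S) s z.1) (y.snoc z.2) : BConf H V S (n + 1)) := by
  refine continuous_quotient_mk'.comp (Continuous.prodMk ?_ ?_)
  · refine continuous_pi fun i => ?_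
    refine Fin.lastCases ?_ (fun i => ?_) i
    · simpa only [Fin.snoc_last] using continuous_fst
    · simpa only [Fin.snoc_castSucc] using continuous_const
  · refine continuous_induced_rng.2 (continuous_pi fun i => ?_)
    change Continuous fun z : S × Fib y => (Fin.snoc (α := fun _ => V) y.1 z.2.1 i : V)
    refine Fin.lastCases ?_ (fun i => ?_) i
    · simp only [Fin.snoc_last]
      exact (Fib.continuous_val y).comp continuous_snd
    · simpa only [Fin.snoc_castSucc] using continuous_const

/-- The inclusion of the fibre over `y` on classifying spaces (`s` is the other part of the base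
point over `y`). -/
def incl (s : Fin n → S) (y : Conf H V n) : C(BFib S y, BConf H V S (n + 1)) :=
  ⟨Quotient.lift (fun z => BConf.mk (Fin.snoc (α := fun _ => S) s z.1) (y.snoc z.2)) (by
      rintro _ ⟨t, v⟩ ⟨g, rfl⟩
      refine Quotient.sound ⟨Fin.snoc (α := fun _ => H) (fun _ => 1) g, ?_⟩
      refine Prod.ext (funext fun i => ?_) (Subtype.ext (funext fun i => ?_))
      · refine Fin.lastCases ?_ (fun i => ?_) i
        · change (Fin.snoc (α := fun _ => H) (fun _ => 1) g (Fin.last n) : H) •
            (Fin.snoc (α := fun _ => S) s t (Fin.last n) : S) =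
              Fin.snoc (α := fun _ => S) s (g • t) (Fin.last n)
          rw [Fin.snoc_last, Fin.snoc_last, Fin.snoc_last]
        · change (Fin.snoc (α := fun _ => H) (fun _ => 1) g i.castSucc : H) •
            (Fin.snoc (α := fun _ => S) s t i.castSucc : S) =
              Fin.snoc (α := fun _ => S) s (g • t) i.castSucc
          rw [Fin.snoc_castSucc, Fin.snoc_castSucc, Fin.snoc_castSucc, one_smul]
      · refine Fin.lastCases ?_ (fun i => ?_) i
        · change (Fin.snoc (α := fun _ => H) (fun _ => 1) g (Fin.last n) : H) •
            (Fin.snoc (α := fun _ => V) y.1 v.1 (Fin.last n) : V) =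
              Fin.snoc (α := fun _ => V) y.1 (g • v.1) (Fin.last n)
          rw [Fin.snoc_last, Fin.snoc_last, Fin.snoc_last]
        · change (Fin.snoc (α := fun _ => H) (fun _ => 1) g i.castSucc : H) •
            (Fin.snoc (α := fun _ => V) y.1 v.1 i.castSucc : V) =
              Fin.snoc (α := fun _ => V) y.1 (g • v.1) i.castSucc
          rw [Fin.snoc_castSucc, Fin.snoc_castSucc, Fin.snoc_castSucc, one_smul]),
    continuous_quot_lift _ (continuous_incl_aux s y)⟩

theorem incl_mk (s : Fin n → S) (y : Conf H V n) (t : S) (v : Fib y) :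
    incl s y (BFib.mk t v) = BConf.mk (Fin.snoc (α := fun _ => S) s t) (y.snoc v) := rfl

theorem forget_mk (s : Fin n → S) (y : Conf H V n) (t : S) (v : Fib y) :
    forget (BConf.mk (Fin.snoc (α := fun _ => S) s t) (y.snoc v)) = BConf.mk s y := by
  change BConf.mk (fun i : Fin n => (Fin.snoc (α := fun _ => S) s t i.castSucc : S))
    (y.snoc v).init = BConf.mk s y
  congr 1
  · funext i; rw [Fin.snoc_castSucc]
  · refine Subtype.ext (funext fun i => ?_)
    change (Fin.snoc (α := fun _ => V) y.1 v.1 i.castSucc : V) = _
    rw [Fin.snoc_castSucc]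

/-- The configuration `y` is a smooth point of `PB_n(M)`: its isotropy group is trivial. -/
def IsSmooth (y : Conf H V n) : Prop := ∀ (g : Fin n → H), g • y = y → g = 1

variable (H V S n)

/-- The map `PB_(n+1)(M) → PB_n(M)`, `M = V / H`, is a quasifibration: for all smooth points `y` of
`PB_n(M)` and all points `v` of the fibre over `y` there are homomorphisms `∂` for which the sequence
of the orbifold homotopy groups is exact. (`s` and `t` run over all lifts of the base points to the
classifying spaces.) -/
def IsQuasifibration : Prop :=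
  ∀ (y : Conf H V n) (v : Fib y) (s : Fin n → S) (t : S), IsSmooth y →
    ExactSequence (incl s y) forget (incl_mk s y t v) (forget_mk s y t v)

end orbifold

end Pool.Agent.J4.H99.QF
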