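import Mathlib
import Pool.Agent.H15.Brouwer

/-!
# An essential map of a cube modulo its boundary into a punctured vector space
-/

set_option autoImplicit false

open Topology Topology.Homotopy unitInterval Metric Set

namespace Pool.Agent.J4.H99.QF

variable {W : Type} [NormedAddCommGroup W] [InnerProductSpace ℝ W]

section sph

variable {m : ℕ}

/-- centred coordinates of the cube -/
noncomputable def ctr (z : I^(Fin m)) : Fin m → ℝ := fun i => 2 * (z i : ℝ) - 1

theorem continuous_ctr : Continuous (ctr (m := m)) := by unfold ctr; fun_prop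

theorem norm_ctr_le (z : I^(Fin m)) : ‖ctr z‖ ≤ 1 := by
  rw [pi_norm_le_iff_of_nonneg zero_le_one]
  intro i
  have h1 := (z i).2.1
  have h2 := (z i).2.2
  rw [Real.norm_eq_abs, abs_le]
  simp only [ctr]
  constructor <;> linarith

theorem norm_ctr_eq_one {z : I^(Fin m)} : ‖ctr z‖ = 1 ↔ z ∈ Cube.boundary (Fin m) := by
  constructor
  · intro h
    by_contra hz
    have h1 : ‖ctr z‖ < 1 := by
      rw [pi_norm_lt_iff one_pos]
      intro i
      have h1 := (z i).2.1
      have h2 := (z i).2.2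
      have h3 : z i ≠ 0 := fun e => hz ⟨i, Or.inl e⟩
      have h4 : z i ≠ 1 := fun e => hz ⟨i, Or.inr e⟩
      have h5 : (0 : ℝ) < z i := lt_of_le_of_ne h1 fun e => h3 (Subtype.ext e.symm)
      have h6 : (z i : ℝ) < 1 := lt_of_le_of_ne h2 fun e => h4 (Subtype.ext e)
      rw [Real.norm_eq_abs, abs_lt]
      simp only [ctr]
      constructor <;> linarith
    exact absurd h h1.ne
  · rintro ⟨i, hi⟩
    refine le_antisymm (norm_ctr_le z) ?_
    refine le_trans (le_of_eq ?_) (norm_le_pi_norm (ctr z) i)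
    rcases hi with hi | hi
    · simp [ctr, hi]
    · simp only [ctr, hi]
      norm_num

/-- denominator -/
noncomputable def den (z : I^(Fin m)) : ℝ :=
  ‖(WithLp.toLp 2 (ctr z) : EuclideanSpace ℝ (Fin m))‖ ^ 2 + (1 - ‖ctr z‖) ^ 2

theorem norm_le_euc (x : Fin m → ℝ) : ‖x‖ ≤ ‖(WithLp.toLp 2 x : EuclideanSpace ℝ (Fin m))‖ := by
  rw [pi_norm_le_iff_of_nonneg (norm_nonneg _)]
  intro i
  exact PiLp.norm_apply_le (WithLp.toLp 2 x : EuclideanSpace ℝ (Fin m)) i

theorem den_pos (z : I^(Fin m)) : 0 < den z := by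
  unfold den
  have h1 := norm_le_euc (ctr z)
  have h2 := norm_nonneg (ctr z)
  rcases eq_or_lt_of_le h2 with h | h
  · rw [← h]
    positivity
  · have : 0 < ‖(WithLp.toLp 2 (ctr z) : EuclideanSpace ℝ (Fin m))‖ := lt_of_lt_of_le h h1
    positivity

variable (T : EuclideanSpace ℝ (Fin m) →ₗᵢ[ℝ] W) (p : W)

/-- the map onto the sphere -/
noncomputable def qm (z : I^(Fin m)) : W :=
  (den z)⁻¹ • ((2 * (1 - ‖ctr z‖)) • T (WithLp.toLp 2 (ctr z)) +
    (‖(WithLp.toLp 2 (ctr z) : EuclideanSpace ℝ (Fin m))‖ ^ 2 - (1 - ‖ctr z‖) ^ 2) • p)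

theorem continuous_qm : Continuous (qm T p) := by
  have h1 : Continuous (ctr (m := m)) := continuous_ctr
  have h2 : Continuous fun z : I^(Fin m) => (WithLp.toLp 2 (ctr z) : EuclideanSpace ℝ (Fin m)) :=
    (PiLp.continuous_toLp 2 _).comp h1
  have h3 : Continuous (den (m := m)) := by unfold den; fun_prop
  have h4 : Continuous fun z : I^(Fin m) => T (WithLp.toLp 2 (ctr z)) := T.continuous.comp h2
  unfold qm
  refine (h3.inv₀ fun z => (den_pos z).ne').smul ?_
  fun_prop

variable {T p} (hp : ‖p‖ = 1) (hT : ∀ x, inner ℝ (T x) p = 0)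

include hp hT in
theorem norm_qm (z : I^(Fin m)) : ‖qm T p z‖ = 1 := by
  unfold qm
  rw [norm_smul, norm_inv, Real.norm_of_nonneg (den_pos z).le]
  have h1 : ‖(2 * (1 - ‖ctr z‖)) • T (WithLp.toLp 2 (ctr z)) +
      (‖(WithLp.toLp 2 (ctr z) : EuclideanSpace ℝ (Fin m))‖ ^ 2 - (1 - ‖ctr z‖) ^ 2) • p‖ ^ 2 =
      den z ^ 2 := by
    rw [@norm_add_sq_real, inner_smul_left, inner_smul_right, hT, norm_smul, norm_smul, hp,
      LinearIsometry.norm_map]
    simp only [Real.norm_eq_abs, mul_pow, sq_abs, den]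
    ring
  have h2 := (pow_left_inj₀ (norm_nonneg _) (den_pos z).le two_ne_zero).1 h1
  rw [h2, inv_mul_cancel₀ (den_pos z).ne']

theorem qm_boundary {z : I^(Fin m)} (hz : z ∈ Cube.boundary (Fin m)) : qm T p z = p := by
  have h := norm_ctr_eq_one.2 hz
  have h1 := den_pos z
  unfold qm
  unfold den at *
  rw [h] at *
  simp only [sub_self, mul_zero, zero_smul, zero_add, ne_eq, OfNat.ofNat_ne_zero,
    not_false_eq_true, zero_pow, add_zero, sub_zero] at *
  rw [smul_smul, inv_mul_cancel₀ h1.ne', one_smul]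

include hp hT in
theorem inner_qm (z : I^(Fin m)) : 1 - inner ℝ (qm T p z) p =
    2 * (1 - ‖ctr z‖) ^ 2 / den z := by
  unfold qm
  rw [inner_smul_left, inner_add_left, inner_smul_left, inner_smul_left, hT,
    real_inner_self_eq_norm_sq, hp]
  have h := (den_pos z).ne'
  have h2 : den z = ‖(WithLp.toLp 2 (ctr z) : EuclideanSpace ℝ (Fin m))‖ ^ 2 +
    (1 - ‖ctr z‖) ^ 2 := rfl
  simp only [conj_trivial, mul_zero, zero_add, one_pow, mul_one]
  rw [eq_div_iff h, sub_mul, one_mul, mul_comm (den z)⁻¹, mul_assoc, inv_mul_cancel₀ h, mul_one]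
  rw [h2]
  ring

/-- the inverse image of a vector of the sphere, in `ℝ ^ m` -/
noncomputable def st (T : EuclideanSpace ℝ (Fin m) →ₗᵢ[ℝ] W) (p : W) (w : W) : Fin m → ℝ :=
  fun i => inner ℝ (T (EuclideanSpace.single i 1)) w / (1 - inner ℝ w p)

include hp hT in
theorem st_qm {z : I^(Fin m)} (hz : z ∉ Cube.boundary (Fin m)) :
    st T p (qm T p z) = (1 - ‖ctr z‖)⁻¹ • ctr z := by
  have h1 : ‖ctr z‖ < 1 := lt_of_le_of_ne (norm_ctr_le z) fun e => hz (norm_ctr_eq_one.1 e)
  have h2 : (1 - ‖ctr z‖) ≠ 0 := by linarith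
  have h3 := (den_pos z).ne'
  funext i
  simp only [st, Pi.smul_apply, smul_eq_mul]
  rw [inner_qm hp hT]
  have h4 : inner ℝ (T (EuclideanSpace.single i 1)) (qm T p z) =
      (den z)⁻¹ * (2 * (1 - ‖ctr z‖) * ctr z i) := by
    unfold qm
    rw [inner_smul_right, inner_add_right, inner_smul_right, inner_smul_right, hT,
      LinearIsometry.inner_map_map, EuclideanSpace.inner_single_left]
    simp
  rw [h4]
  field_simp

theorem ctr_injective : Function.Injective (ctr (m := m)) := by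
  intro z z' h
  funext i
  have := congrFun h i
  simp only [ctr] at this
  apply Subtype.ext
  linarith

include hp hT in
theorem qm_eq {z z' : I^(Fin m)} (h : qm T p z = qm T p z') :
    z = z' ∨ (z ∈ Cube.boundary (Fin m) ∧ z' ∈ Cube.boundary (Fin m)) := by
  have key : ∀ z : I^(Fin m), qm T p z = p → z ∈ Cube.boundary (Fin m) := by
    intro z hz
    have h1 := inner_qm hp hT z
    rw [hz, real_inner_self_eq_norm_sq, hp] at h1
    have h2 := den_pos z
    rw [eq_div_iff h2.ne'] at h1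
    have h3 : (1 - ‖ctr z‖) ^ 2 = 0 := by linarith
    have h4 : 1 - ‖ctr z‖ = 0 := by simpa using h3
    exact norm_ctr_eq_one.1 (by linarith)
  by_cases h1 : z ∈ Cube.boundary (Fin m)
  · right
    exact ⟨h1, key z' (by rw [← h]; exact qm_boundary h1)⟩
  · have h2 : z' ∉ Cube.boundary (Fin m) := fun h2 => h1 (key z (by rw [h]; exact qm_boundary h2))
    left
    have h3 := st_qm hp hT h1
    rw [h, st_qm hp hT h2] at h3
    have a1 : ‖ctr z‖ < 1 := lt_of_le_of_ne (norm_ctr_le z) fun e => h1 (norm_ctr_eq_one.1 e)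
    have a2 : ‖ctr z'‖ < 1 := lt_of_le_of_ne (norm_ctr_le z') fun e => h2 (norm_ctr_eq_one.1 e)
    have h4 := congrArg norm h3
    rw [norm_smul, norm_smul, norm_inv, norm_inv, Real.norm_of_nonneg (by linarith),
      Real.norm_of_nonneg (by linarith)] at h4
    have h5 : ‖ctr z'‖ = ‖ctr z‖ := by
      rw [inv_mul_eq_div, inv_mul_eq_div, div_eq_div_iff (by linarith) (by linarith)] at h4
      nlinarith
    rw [h5] at h3
    have h6 := smul_right_injective _ (inv_ne_zero (by linarith : (1 - ‖ctr z‖) ≠ 0)) h3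
    exact (ctr_injective h6).symm

include hp hT in
theorem qm_surj (hm : 0 < m) (hspan : ∀ w : W, w = T (WithLp.toLp 2 fun i =>
    inner ℝ (T (EuclideanSpace.single i 1)) w) + (inner ℝ w p : ℝ) • p) (w : W) (hw : ‖w‖ = 1) :
    ∃ z : I^(Fin m), qm T p z = w := by
  by_cases h1 : (inner ℝ w p : ℝ) = 1
  · have h2 : w = p := (inner_eq_one_iff_of_norm_eq_one hw hp).1 h1
    refine ⟨fun _ => 0, ?_⟩
    rw [h2]
    exact qm_boundary ⟨⟨0, hm⟩, Or.inl rfl⟩
  · have hle : (inner ℝ w p : ℝ) ≤ 1 := by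
      have := real_inner_le_norm w p
      rwa [hw, hp, mul_one] at this
    have h2 : 0 < 1 - (inner ℝ w p : ℝ) := by
      have := lt_of_le_of_ne hle h1
      linarith
    set y : Fin m → ℝ := st T p w with hy
    have hy0 : 0 ≤ ‖y‖ := norm_nonneg y
    have hy1 : 0 < 1 + ‖y‖ := by positivity
    have hmem : ∀ i, (((1 + ‖y‖)⁻¹ * y i + 1) / 2) ∈ Icc (0 : ℝ) 1 := by
      intro i
      have h3 : |y i| ≤ ‖y‖ := norm_le_pi_norm y i
      have h4 : |(1 + ‖y‖)⁻¹ * y i| ≤ 1 := by
        rw [abs_mul, abs_of_pos (inv_pos.2 hy1), inv_mul_le_iff₀ hy1]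
        linarith
      rw [abs_le] at h4
      constructor <;> linarith [h4.1, h4.2]
    refine ⟨fun i => ⟨_, hmem i⟩, ?_⟩
    set z : I^(Fin m) := fun i => ⟨_, hmem i⟩ with hz
    have hc : ctr z = (1 + ‖y‖)⁻¹ • y := by
      funext i
      simp only [ctr, hz, Pi.smul_apply, smul_eq_mul]
      ring
    have hn : ‖ctr z‖ = (1 + ‖y‖)⁻¹ * ‖y‖ := by
      rw [hc, norm_smul, Real.norm_of_nonneg (inv_nonneg.2 hy1.le)]
    have hn1 : 1 - ‖ctr z‖ = (1 + ‖y‖)⁻¹ := by
      rw [hn]; field_simp; ring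
    have hv : (WithLp.toLp 2 (ctr z) : EuclideanSpace ℝ (Fin m)) =
        (1 + ‖y‖)⁻¹ • WithLp.toLp 2 y := by rw [hc]; rfl
    -- the perpendicular part
    set u : EuclideanSpace ℝ (Fin m) :=
      WithLp.toLp 2 fun i => inner ℝ (T (EuclideanSpace.single i 1)) w with hu
    have hyu : (WithLp.toLp 2 y : EuclideanSpace ℝ (Fin m)) =
        (1 - (inner ℝ w p : ℝ))⁻¹ • u := by
      ext i
      simp only [hy, st, hu, PiLp.smul_apply, smul_eq_mul]
      rw [div_eq_inv_mul]
    have hu2 : ‖u‖ ^ 2 = 1 - (inner ℝ w p : ℝ) ^ 2 := by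
      have h3 : ‖w‖ ^ 2 = ‖u‖ ^ 2 + (inner ℝ w p : ℝ) ^ 2 := by
        have e : w = T u + (inner ℝ w p : ℝ) • p := hspan w
        calc ‖w‖ ^ 2 = ‖T u + (inner ℝ w p : ℝ) • p‖ ^ 2 := by rw [← e]
          _ = _ := by
            rw [@norm_add_sq_real, inner_smul_right, hT, norm_smul, hp, LinearIsometry.norm_map]
            simp
      rw [hw] at h3
      linarith
    set α : ℝ := inner ℝ w p with hα
    have hny : ‖(WithLp.toLp 2 y : EuclideanSpace ℝ (Fin m))‖ ^ 2 = (1 + α) / (1 - α) := by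
      rw [hyu, norm_smul, mul_pow, hu2, norm_inv, Real.norm_of_nonneg h2.le]
      field_simp
      ring
    have hnz : ‖(WithLp.toLp 2 (ctr z) : EuclideanSpace ℝ (Fin m))‖ ^ 2 =
        ((1 + ‖y‖)⁻¹) ^ 2 * ((1 + α) / (1 - α)) := by
      rw [hv, norm_smul, mul_pow, hny, norm_inv, Real.norm_of_nonneg hy1.le]
    have hd : den z = ((1 + ‖y‖)⁻¹) ^ 2 * (2 / (1 - α)) := by
      unfold den
      rw [hnz, hn1]
      field_simp
      ring
    unfold qm
    rw [hnz, hn1, hd, hv, hyu, map_smul, map_smul]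
    conv_rhs => rw [hspan w]
    rw [← hu, ← hα]
    simp only [smul_add, smul_smul]
    have h3 : (1 + ‖y‖) ≠ 0 := hy1.ne'
    have h4 : (1 - α) ≠ 0 := h2.ne'
    congr 1
    · have : (((1 + ‖y‖)⁻¹) ^ 2 * (2 / (1 - α)))⁻¹ * (2 * (1 + ‖y‖)⁻¹ * ((1 + ‖y‖)⁻¹ * (1 - α)⁻¹))
          = 1 := by
        field_simp
      rw [← mul_assoc (2 * (1 + ‖y‖)⁻¹)] at this
      first
      | rw [this, one_smul]
      | (rw [show (((1 + ‖y‖)⁻¹) ^ 2 * (2 / (1 - α)))⁻¹ * (2 * (1 + ‖y‖)⁻¹ * ((1 + ‖y‖)⁻¹ * (1 - α)⁻¹))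
          = 1 by field_simp, one_smul])
    · congr 1
      field_simp
      ring

/-- the predicate: constant on the boundary of the cube -/
def CB {m : ℕ} {X : Type} [TopologicalSpace X] (f : C(I^(Fin m), X)) : Prop :=
  ∀ z ∈ Cube.boundary (Fin m), ∀ z' ∈ Cube.boundary (Fin m), f z = f z'

include hp hT in
theorem qm_essential [FiniteDimensional ℝ W] (hm : 0 < m)
    (hspan : ∀ w : W, w = T (WithLp.toLp 2 fun i =>
      inner ℝ (T (EuclideanSpace.single i 1)) w) + (inner ℝ w p : ℝ) • p)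
    (lam : C(I^(Fin m), {w : W // w ≠ 0})) (hlam : ∀ z, (lam z : W) = qm T p z)
    (c : {w : W // w ≠ 0}) :
    ¬ ContinuousMap.HomotopicWith lam (ContinuousMap.const _ c) CB := by
  rintro ⟨G⟩
  -- the quotient map onto the sphere
  let Q : I × (I^(Fin m)) → I × sphere (0 : W) 1 := fun z =>
    (z.1, ⟨qm T p z.2, by rw [mem_sphere_zero_iff_norm]; exact norm_qm hp hT z.2⟩)
  have hQc : Continuous Q := by
    refine continuous_fst.prodMk (Continuous.subtype_mk ?_ _)
    exact (continuous_qm T p).comp continuous_snd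
  have hQs : Function.Surjective Q := by
    rintro ⟨t, w, hw⟩
    obtain ⟨z, hz⟩ := qm_surj hp hT hm hspan w (mem_sphere_zero_iff_norm.1 hw)
    exact ⟨(t, z), Prod.ext rfl (Subtype.ext hz)⟩
  have hQ : IsQuotientMap Q := hQc.isClosedMap.isQuotientMap hQc hQs
  let G' : C(I × (I^(Fin m)), {w : W // w ≠ 0}) := ⟨G, G.continuous⟩
  have hG' : ∀ a b, Q a = Q b → G' a = G' b := by
    rintro ⟨t, z⟩ ⟨t', z'⟩ h
    have ht : t = t' := congrArg Prod.fst h
    subst ht
    have hz : qm T p z = qm T p z' := congrArg (fun x => (x.2 : W)) h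
    rcases qm_eq hp hT hz with h1 | ⟨h1, h2⟩
    · rw [h1]
    · exact G.prop t z h1 z' h2
  let Q' : C(I × (I^(Fin m)), I × sphere (0 : W) 1) := ⟨Q, hQc⟩
  have hQ' : IsQuotientMap Q' := hQ
  have hG'' : Function.FactorsThrough G' Q' := fun a b h => hG' a b h
  let F : C(I × sphere (0 : W) 1, {w : W // w ≠ 0}) := hQ'.lift G' hG''
  have hF : ∀ t z, F (Q (t, z)) = G (t, z) := fun t z => by
    have := DFunLike.congr_fun (hQ'.lift_comp G' hG'') (t, z)
    exact this
  have hF0 : ∀ w : sphere (0 : W) 1, (F (0, w) : W) = w := by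
    intro w
    obtain ⟨⟨t, z⟩, hz⟩ := hQs (0, w)
    have ht : t = 0 := congrArg Prod.fst hz
    subst ht
    rw [← hz, hF, G.apply_zero, hlam]
    exact congrArg (fun x => (x.2 : W)) hz
  have hF1 : ∀ w : sphere (0 : W) 1, F (1, w) = c := by
    intro w
    obtain ⟨⟨t, z⟩, hz⟩ := hQs (1, w)
    have ht : t = 1 := congrArg Prod.fst hz
    subst ht
    rw [← hz, hF, G.apply_one]
    rfl
  -- the extension
  have hcl : ∀ x : W, max 0 (min 1 (2 - 2 * ‖x‖)) ∈ I := fun x =>
    ⟨le_max_left _ _, max_le zero_le_one (min_le_left _ _)⟩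
  have hsp : ∀ x : W, x ≠ 0 → ‖x‖⁻¹ • x ∈ sphere (0 : W) 1 := fun x hx => by
    rw [mem_sphere_zero_iff_norm, norm_smul, norm_inv, norm_norm,
      inv_mul_cancel₀ (norm_ne_zero_iff.2 hx)]
  classical
  let K : W → W := fun x => if hx : x = 0 then c else
    max 1 ‖x‖ • (F (⟨_, hcl x⟩, ⟨_, hsp x hx⟩) : W)
  have hK : Continuous K := by
    rw [continuous_iff_continuousAt]
    intro x
    by_cases hx : x = 0
    · subst hx
      have : K =ᶠ[𝓝 0] fun _ => (c : W) := by
        filter_upwards [Metric.ball_mem_nhds (0 : W) (by norm_num : (0 : ℝ) < 1 / 2)] with x hx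
        rw [mem_ball_zero_iff] at hx
        by_cases h0 : x = 0
        · simp only [K, dif_pos h0]
        · simp only [K, dif_neg h0]
          have h1 : (⟨_, hcl x⟩ : I) = 1 := by
            apply Subtype.ext
            change max 0 (min 1 (2 - 2 * ‖x‖)) = 1
            rw [min_eq_left (by linarith), max_eq_right zero_le_one]
          rw [h1, hF1, max_eq_left (by linarith), one_smul]
      rw [continuousAt_congr this]
      exact continuousAt_const
    · have h1 : ContinuousOn K {x : W | x ≠ 0} := by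
        rw [continuousOn_iff_continuous_domRestrict]
        have h2 : ({x : W | x ≠ 0}.domRestrict K) = fun x : {x : W | x ≠ 0} =>
            max 1 ‖(x : W)‖ • (F (⟨_, hcl x⟩, ⟨_, hsp x x.2⟩) : W) := by
          funext x
          have hx0 : (x : W) ≠ 0 := x.2
          change K x = _
          simp only [K, dif_neg hx0]
        rw [h2]
        refine Continuous.smul (by fun_prop) ?_
        refine continuous_subtype_val.comp (F.continuous.comp ?_)
        refine Continuous.prodMk (Continuous.subtype_mk (by fun_prop) _)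
          (Continuous.subtype_mk ?_ _)
        refine Continuous.smul ?_ continuous_subtype_val
        exact (continuous_norm.comp continuous_subtype_val).inv₀
          fun x => norm_ne_zero_iff.2 x.2
      exact h1.continuousAt (isOpen_ne.mem_nhds hx)
  obtain ⟨x, hx⟩ := Pool.Agent.H15.Brouwer.exists_zero K hK (by
    intro x hx
    have h0 : x ≠ 0 := by
      rintro rfl
      rw [norm_zero] at hx
      linarith
    simp only [K, dif_neg h0]
    have h1 : (⟨_, hcl x⟩ : I) = 0 := by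
      apply Subtype.ext
      change max 0 (min 1 (2 - 2 * ‖x‖)) = 0
      exact max_eq_left (min_le_of_right_le (by linarith))
    rw [h1, hF0, max_eq_right hx, smul_smul, mul_inv_cancel₀ (norm_ne_zero_iff.2 h0), one_smul])
  by_cases h0 : x = 0
  · simp only [K, dif_pos h0] at hx
    exact c.2 hx
  · simp only [K, dif_neg h0] at hx
    rcases smul_eq_zero.1 hx with h | h
    · have := le_max_left 1 ‖x‖
      linarith
    · exact (F _).2 h

end sph

/-- In a Euclidean space of dimension `m + 1`, `m ≥ 1`, there is an essential map of the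
`m`-dimensional cube modulo its boundary into the punctured space. -/
theorem exists_essential [FiniteDimensional ℝ W] {m : ℕ} (hm : 0 < m)
    (hW : Module.finrank ℝ W = m + 1) (p : W) (hp : ‖p‖ = 1) :
    ∃ lam : C(I^(Fin m), {w : W // w ≠ 0}), (∀ z, ‖(lam z : W)‖ = 1) ∧
      (∀ z ∈ Cube.boundary (Fin m), (lam z : W) = p) ∧
      ∀ c, ¬ ContinuousMap.HomotopicWith lam (ContinuousMap.const _ c) CB := by
  have hp0 : p ≠ 0 := fun h => by simp [h] at hp
  have hfr : Module.finrank ℝ (ℝ ∙ p)ᗮ = m := by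
    have h1 := Submodule.finrank_add_finrank_orthogonal (ℝ ∙ p)
    rw [finrank_span_singleton hp0, hW] at h1
    omega
  let b : OrthonormalBasis (Fin m) ℝ (ℝ ∙ p)ᗮ :=
    (stdOrthonormalBasis ℝ (ℝ ∙ p)ᗮ).reindex (finCongr hfr)
  let T : EuclideanSpace ℝ (Fin m) →ₗᵢ[ℝ] W :=
    (ℝ ∙ p)ᗮ.subtypeₗᵢ.comp b.repr.symm.toLinearIsometry
  have hT : ∀ x, inner ℝ (T x) p = 0 := by
    intro x
    have : T x ∈ (ℝ ∙ p)ᗮ := (b.repr.symm x).2
    rw [Submodule.mem_orthogonal_singleton_iff_inner_left] at this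
    exact this
  have hspan : ∀ w : W, w = T (WithLp.toLp 2 fun i =>
      inner ℝ (T (EuclideanSpace.single i 1)) w) + (inner ℝ w p : ℝ) • p := by
    intro w
    have h1 : w - (inner ℝ w p : ℝ) • p ∈ (ℝ ∙ p)ᗮ := by
      rw [Submodule.mem_orthogonal_singleton_iff_inner_left, inner_sub_left, inner_smul_left,
        real_inner_self_eq_norm_sq, hp]
      simp
    have h2 : T (b.repr ⟨_, h1⟩) = w - (inner ℝ w p : ℝ) • p := by
      change ((b.repr.symm (b.repr ⟨_, h1⟩) : (ℝ ∙ p)ᗮ) : W) = _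
      rw [LinearIsometryEquiv.symm_apply_apply]
    have h3 : (WithLp.toLp 2 fun i => inner ℝ (T (EuclideanSpace.single i 1)) w) =
        b.repr ⟨_, h1⟩ := by
      ext i
      have h4 : b.repr ⟨_, h1⟩ i = inner ℝ (T (EuclideanSpace.single i 1)) (T (b.repr ⟨_, h1⟩)) := by
        rw [LinearIsometry.inner_map_map, EuclideanSpace.inner_single_left]
        simp
      change inner ℝ (T (EuclideanSpace.single i 1)) w = b.repr ⟨_, h1⟩ i
      rw [h4, h2, inner_sub_right, inner_smul_right, hT, mul_zero, sub_zero]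
    rw [h3, h2]
    abel
  refine ⟨⟨fun z => ⟨qm T p z, fun h => ?_⟩, (continuous_qm T p).subtype_mk _⟩, fun z => ?_,
    fun z hz => ?_, fun c => ?_⟩
  · have := norm_qm hp hT z
    rw [h] at this
    simp at this
  · exact norm_qm hp hT z
  · exact qm_boundary hz
  · exact qm_essential hp hT hm hspan _ (fun _ => rfl) c

end Pool.Agent.J4.H99.QF
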