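import Pool.Agent.J4.H99.QF.Borel
import Pool.Agent.J4.H99.QF.Ess

/-!
# The orbifold `(A / ±1) × B`
-/

set_option autoImplicit false

open Topology Topology.Homotopy unitInterval Set

namespace Pool.Agent.J4.H99.QF

/-- In a vector space of dimension `m + 1`, `m ≥ 1`, there is an essential map of the
`m`-dimensional cube modulo its boundary into the punctured space. -/
theorem exists_essential' {W : Type} [NormedAddCommGroup W] [NormedSpace ℝ W]
    [FiniteDimensional ℝ W] {m : ℕ} (hm : 0 < m) (hW : Module.finrank ℝ W = m + 1) (p : W)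
    (hp : p ≠ 0) :
    ∃ lam : C(I^(Fin m), {w : W // w ≠ 0}), (∀ z ∈ Cube.boundary (Fin m), (lam z : W) = p) ∧
      ∀ c, ¬ ContinuousMap.HomotopicWith lam (ContinuousMap.const _ c) CB := by
  let Φ : EuclideanSpace ℝ (Fin (m + 1)) ≃L[ℝ] W :=
    ContinuousLinearEquiv.ofFinrankEq (by rw [finrank_euclideanSpace, Fintype.card_fin, hW])
  set p' := Φ.symm p with hp'
  have hp0 : p' ≠ 0 := fun h => hp (by rw [← Φ.apply_symm_apply p, ← hp', h, map_zero])
  have hn : ‖p'‖ ≠ 0 := norm_ne_zero_iff.2 hp0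
  obtain ⟨lam, -, h1, h2⟩ := exists_essential (W := EuclideanSpace ℝ (Fin (m + 1))) hm
    (by rw [finrank_euclideanSpace, Fintype.card_fin]) (‖p'‖⁻¹ • p')
    (by rw [norm_smul, norm_inv, norm_norm, inv_mul_cancel₀ hn])
  let f : C({w : EuclideanSpace ℝ (Fin (m + 1)) // w ≠ 0}, {w : W // w ≠ 0}) :=
    ⟨fun w => ⟨‖p'‖ • Φ w.1, smul_ne_zero hn (fun h => w.2 (by simpa using h))⟩, by
      refine Continuous.subtype_mk ?_ _
      exact (Φ.continuous.comp continuous_subtype_val).const_smul (‖p'‖ : ℝ)⟩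
  let g : C({w : W // w ≠ 0}, {w : EuclideanSpace ℝ (Fin (m + 1)) // w ≠ 0}) :=
    ⟨fun w => ⟨‖p'‖⁻¹ • Φ.symm w.1, smul_ne_zero (inv_ne_zero hn) (fun h => w.2 (by simpa using h))⟩,
      by
      refine Continuous.subtype_mk ?_ _
      exact (Φ.symm.continuous.comp continuous_subtype_val).const_smul (‖p'‖⁻¹ : ℝ)⟩
  have hgf : ∀ w, g (f w) = w := by
    intro w
    apply Subtype.ext
    change ‖p'‖⁻¹ • Φ.symm (‖p'‖ • Φ w.1) = w.1
    rw [map_smul, Φ.symm_apply_apply, smul_smul, inv_mul_cancel₀ hn, one_smul]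
  refine ⟨f.comp lam, fun z hz => ?_, fun c hc => ?_⟩
  · change ‖p'‖ • Φ (lam z).1 = p
    rw [h1 z hz, map_smul, smul_smul, mul_inv_cancel₀ hn, one_smul, hp', Φ.apply_symm_apply]
  · obtain ⟨F⟩ := hc
    refine h2 (g c) ⟨⟨⟨g.comp F.toContinuousMap, fun z => ?_, fun z => ?_⟩, fun t z hz z' hz' => ?_⟩⟩
    · change g (F (0, z)) = lam z
      rw [F.apply_zero]
      exact hgf _
    · change g (F (1, z)) = g c
      rw [F.apply_one]
      rfl
    · change g (F (t, z)) = g (F (t, z'))
      have : F (t, z) = F (t, z') := F.prop t z hz z' hz'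
      rw [this]

section algebra

/-- the inequality behind the linear homotopy -/
theorem lin_aux {s t τ : ℝ} (h0 : 0 ≤ τ) (h1 : τ ≤ 1)
    (e1 : -t + τ * (t - min s t + (|s| - |t|) / 2) = 0)
    (e2 : s + τ * (min s t + (|s| - |t|) / 2 - s) = 0) : s = 0 ∧ t = 0 := by
  rcases le_total s t with h | h
  · rw [min_eq_left h] at e1 e2
    have e3 : (1 - τ) * t + (1 + τ) * s = 0 := by linear_combination e2 - e1
    have e4 : s + τ * ((|s| - |t|) / 2) = 0 := by linear_combination e2
    have hs : s = 0 := by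
      rcases lt_trichotomy s 0 with hs | hs | hs
      · exfalso
        have ht : 0 < t := by
          by_contra hcon
          have : t ≤ 0 := not_lt.1 hcon
          nlinarith
        rw [abs_of_neg hs, abs_of_pos ht] at e4
        nlinarith
      · exact hs
      · exfalso
        have ht : 0 < t := lt_of_lt_of_le hs h
        nlinarith
    subst hs
    have e5 : (1 - τ) * t = 0 := by linear_combination e3
    rw [abs_zero] at e4
    have e6 : τ * |t| = 0 := by linear_combination (-2 : ℝ) * e4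
    refine ⟨rfl, ?_⟩
    rcases mul_eq_zero.1 e5 with h5 | h5
    · rcases mul_eq_zero.1 e6 with h6 | h6
      · linarith
      · exact abs_eq_zero.1 h6
    · exact h5
  · rw [min_eq_right h] at e1 e2
    have e3 : (1 - τ) * s + (1 + τ) * t = 0 := by linear_combination e2 - e1
    have e4 : -t + τ * ((|s| - |t|) / 2) = 0 := by linear_combination e1
    have ht : t = 0 := by
      rcases lt_trichotomy t 0 with ht | ht | ht
      · exfalso
        have hs : 0 < s := by
          by_contra hcon
          have : s ≤ 0 := not_lt.1 hcon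
          nlinarith
        rw [abs_of_pos hs, abs_of_neg ht] at e4
        nlinarith
      · exact ht
      · exfalso
        have hs : 0 < s := lt_of_lt_of_le ht h
        nlinarith
    subst ht
    have e5 : (1 - τ) * s = 0 := by linear_combination e3
    rw [abs_zero] at e4
    have e6 : τ * |s| = 0 := by linear_combination (2 : ℝ) * e4
    refine ⟨?_, rfl⟩
    rcases mul_eq_zero.1 e5 with h5 | h5
    · rcases mul_eq_zero.1 e6 with h6 | h6
      · linarith
      · exact abs_eq_zero.1 h6
    · exact h5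

end algebra

/-- The manifold `A × B` with the action of `±1` by `± (a, b) = (± a, b)`. -/
def Mir (A B : Type) : Type := A × B

variable {A B : Type} [NormedAddCommGroup A] [InnerProductSpace ℝ A]
  [NormedAddCommGroup B] [NormedSpace ℝ B]

instance : TopologicalSpace (Mir A B) := inferInstanceAs (TopologicalSpace (A × B))

/-- The action of `±1`. -/
instance : MulAction ℤˣ (Mir A B) where
  smul u x := (((u : ℤ) : ℝ) • x.1, x.2)
  one_smul x := Prod.ext (by change (((1 : ℤˣ) : ℤ) : ℝ) • x.1 = x.1; simp) rfl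
  mul_smul u v x := Prod.ext (by
    change (((u * v : ℤˣ) : ℤ) : ℝ) • x.1 = ((u : ℤ) : ℝ) • (((v : ℤ) : ℝ) • x.1)
    rw [smul_smul]; simp) rfl

omit [NormedAddCommGroup B] [NormedSpace ℝ B] in
theorem smul_fst (u : ℤˣ) (x : Mir A B) : (u • x).1 = ((u : ℤ) : ℝ) • x.1 := rfl

omit [NormedAddCommGroup B] [NormedSpace ℝ B] in
theorem smul_snd (u : ℤˣ) (x : Mir A B) : (u • x).2 = x.2 := rfl

instance : ContinuousConstSMul ℤˣ (Mir A B) where
  continuous_const_smul u := by
    change Continuous fun x : A × B => (((u : ℤ) : ℝ) • x.1, x.2)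
    fun_prop

section

variable {B' : Type} [NormedAddCommGroup B'] [NormedSpace ℝ B'] (φ : B ≃L[ℝ] ℝ × B') (e : A)

/-- The map `Θ`. -/
noncomputable def theta (x y : Mir A B) : A × A × B' :=
  let a : A := (1 / 2 : ℝ) • (y.1 + x.1)
  let b : A := (1 / 2 : ℝ) • (y.1 - x.1)
  let w := φ (y.2 - x.2)
  let s : ℝ := inner ℝ b e
  let t : ℝ := - inner ℝ a e
  (a + (t - min s t + w.1 / 2) • e, b + (min s t + w.1 / 2 - s) • e, w.2)

theorem continuous_theta {Z : Type} [TopologicalSpace Z] {f g : Z → Mir A B} (hf : Continuous f)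
    (hg : Continuous g) : Continuous fun z => theta φ e (f z) (g z) := by
  have h1 : Continuous fun z => (f z).1 := continuous_fst.comp hf
  have h2 : Continuous fun z => (f z).2 := continuous_snd.comp hf
  have h3 : Continuous fun z => (g z).1 := continuous_fst.comp hg
  have h4 : Continuous fun z => (g z).2 := continuous_snd.comp hg
  have h5 : Continuous fun z => φ ((g z).2 - (f z).2) := φ.continuous.comp (h4.sub h2)
  unfold theta
  fun_prop

variable {e} (he : ‖e‖ = 1)

include he in
theorem theta_ne {x y : Mir A B} (h : ∀ u : ℤˣ, u • x ≠ y) : theta φ e x y ≠ 0 := by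
  intro h0
  unfold theta at h0
  simp only at h0
  set a : A := (1 / 2 : ℝ) • (y.1 + x.1) with ha
  set b : A := (1 / 2 : ℝ) • (y.1 - x.1) with hb
  set w := φ (y.2 - x.2) with hw
  set s : ℝ := inner ℝ b e with hs
  set t : ℝ := - inner ℝ a e with ht
  have h1 : a + (t - min s t + w.1 / 2) • e = 0 := congrArg Prod.fst h0
  have h2 : b + (min s t + w.1 / 2 - s) • e = 0 := congrArg (fun z => z.2.1) h0
  have h3 : w.2 = 0 := congrArg (fun z => z.2.2) h0
  have hee : (inner ℝ e e : ℝ) = 1 := by rw [real_inner_self_eq_norm_sq, he]; norm_num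
  have h4 := congrArg (fun z => (inner ℝ z e : ℝ)) h1
  have h5 := congrArg (fun z => (inner ℝ z e : ℝ)) h2
  simp only [inner_add_left, inner_smul_left, hee, inner_zero_left, conj_trivial, mul_one] at h4 h5
  rw [← hs] at h5
  have h4' : -t + (t - min s t + w.1 / 2) = 0 := by
    rw [ht] at h4 ⊢
    linarith
  have hw1 : w.1 = 0 := by linarith
  have hmin : min s t = 0 := by linarith
  have hw0 : w = 0 := Prod.ext hw1 h3
  have hyx : y.2 = x.2 := by
    rw [hw] at hw0
    have := φ.injective (hw0.trans (map_zero φ).symm)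
    exact sub_eq_zero.1 this
  rw [hw1, hmin] at h1 h2
  have ha' : a = -t • e := by
    have : a + t • e = 0 := by simpa using h1
    rw [neg_smul]
    exact eq_neg_of_add_eq_zero_left this
  have hb' : b = s • e := by
    have : b + (-s) • e = 0 := by simpa using h2
    rw [neg_smul] at this
    exact add_neg_eq_zero.1 this
  rcases min_eq_iff.1 hmin with ⟨h6, -⟩ | ⟨h6, -⟩
  · -- `b = 0`
    rw [h6, zero_smul] at hb'
    have h7 : y.1 - x.1 = 0 := by
      rcases smul_eq_zero.1 (hb.symm.trans hb') with h | h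
      · norm_num at h
      · exact h
    refine h 1 ?_
    rw [one_smul]
    exact Prod.ext (sub_eq_zero.1 h7).symm hyx.symm
  · rw [h6, neg_zero, zero_smul] at ha'
    have h7 : y.1 + x.1 = 0 := by
      rcases smul_eq_zero.1 (ha.symm.trans ha') with h | h
      · norm_num at h
      · exact h
    refine h (-1) (Prod.ext ?_ ?_)
    · rw [smul_fst]
      simp only [Units.val_neg, Units.val_one, Int.cast_neg, Int.cast_one, neg_smul, one_smul]
      exact neg_eq_of_add_eq_zero_left h7
    · rw [smul_snd]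
      exact hyx.symm

/-- The linear functional which is negative on the image of the fibre. -/
noncomputable def ell (e : A) (w : A × A × B') : ℝ := inner ℝ w.2.1 e - inner ℝ w.1 e

include he in
theorem ell_theta {x y : Mir A B} (hx : x.1 = e) : ell e (theta φ e x y) < 0 := by
  have hee : (inner ℝ e e : ℝ) = 1 := by rw [real_inner_self_eq_norm_sq, he]; norm_num
  unfold ell theta
  simp only [inner_add_left, inner_smul_left, hee, conj_trivial, mul_one]
  rw [hx]
  simp only [inner_sub_left, hee]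
  set r : ℝ := inner ℝ y.1 e with hr
  have h1 := min_le_left (1 / 2 * (r - 1)) (-(1 / 2 * (r + 1)))
  have h2 := min_le_right (1 / 2 * (r - 1)) (-(1 / 2 * (r + 1)))
  linarith

/-- The first moving point. -/
noncomputable def j0 (w : A × A × B') : A := w.1 - w.2.1

/-- The last moving point. -/
noncomputable def jn (w : A × A × B') : Mir A B :=
  (w.1 + w.2.1, φ.symm (‖w.2.1‖ - ‖w.1‖, w.2.2))

theorem theta_j (w : A × A × B') : theta φ e ((j0 w, 0) : A × B) (jn φ w) =
    (w.1 + (-(inner ℝ w.1 e) - min (inner ℝ w.2.1 e) (-(inner ℝ w.1 e)) +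
      (‖w.2.1‖ - ‖w.1‖) / 2 : ℝ) • e,
      w.2.1 + (min (inner ℝ w.2.1 e) (-(inner ℝ w.1 e)) + (‖w.2.1‖ - ‖w.1‖) / 2 -
        inner ℝ w.2.1 e : ℝ) • e, w.2.2) := by
  have h1 : (1 / 2 : ℝ) • (w.1 + w.2.1 + (w.1 - w.2.1)) = w.1 := by module
  have h2 : (1 / 2 : ℝ) • (w.1 + w.2.1 - (w.1 - w.2.1)) = w.2.1 := by module
  unfold theta j0 jn
  simp only [h1, h2, sub_zero, ContinuousLinearEquiv.apply_symm_apply]

include he in
theorem lin_ne {w : A × A × B'} (hw : w ≠ 0) {τ : ℝ} (h0 : 0 ≤ τ) (h1 : τ ≤ 1) :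
    (1 - τ) • w + τ • theta φ e ((j0 w, 0) : A × B) (jn φ w) ≠ 0 := by
  intro h
  rw [theta_j] at h
  have hee : (inner ℝ e e : ℝ) = 1 := by rw [real_inner_self_eq_norm_sq, he]; norm_num
  set s : ℝ := inner ℝ w.2.1 e with hs
  set t : ℝ := -(inner ℝ w.1 e) with ht
  set d : ℝ := ‖w.2.1‖ - ‖w.1‖ with hd
  have e1 : (1 - τ) • w.1 + τ • (w.1 + (t - min s t + d / 2) • e) = 0 := congrArg Prod.fst h
  have e2 : (1 - τ) • w.2.1 + τ • (w.2.1 + (min s t + d / 2 - s) • e) = 0 :=
    congrArg (fun z => z.2.1) h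
  have e3 : (1 - τ) • w.2.2 + τ • w.2.2 = 0 := congrArg (fun z => z.2.2) h
  have e1' : w.1 + (τ * (t - min s t + d / 2)) • e = 0 := by
    rw [← e1]; module
  have e2' : w.2.1 + (τ * (min s t + d / 2 - s)) • e = 0 := by
    rw [← e2]; module
  have e3' : w.2.2 = 0 := by
    rw [← e3]; module
  have f1 := congrArg (fun z => (inner ℝ z e : ℝ)) e1'
  have f2 := congrArg (fun z => (inner ℝ z e : ℝ)) e2'
  simp only [inner_add_left, inner_smul_left, hee, inner_zero_left, conj_trivial, mul_one] at f1 f2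
  rw [← hs] at f2
  have f1' : -t + τ * (t - min s t + d / 2) = 0 := by rw [ht] at f1 ⊢; linarith
  have g1 : w.1 = (-t) • e := by
    rw [show -t = -(τ * (t - min s t + d / 2)) by linarith, neg_smul]
    exact eq_neg_of_add_eq_zero_left e1'
  have g2 : w.2.1 = s • e := by
    rw [show s = -(τ * (min s t + d / 2 - s)) by linarith, neg_smul]
    have := eq_neg_of_add_eq_zero_left e2'
    convert this using 3
  have n1 : ‖w.1‖ = |t| := by rw [g1, norm_smul, he, mul_one, Real.norm_eq_abs, abs_neg]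
  have n2 : ‖w.2.1‖ = |s| := by rw [g2, norm_smul, he, mul_one, Real.norm_eq_abs]
  rw [n1, n2] at hd
  rw [hd] at f1' f2
  obtain ⟨hs0, ht0⟩ := lin_aux h0 h1 f1' f2
  apply hw
  refine Prod.ext ?_ (Prod.ext ?_ e3')
  · rw [g1, ht0, neg_zero, zero_smul]; rfl
  · rw [g2, hs0, zero_smul]; rfl

end

end Pool.Agent.J4.H99.QF
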