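import Pool.Agent.J4.H99.QF.Geo

/-!
# The Fadell-Neuwirth sequence of the orbifold `(ℝ ^ k / ±1) × ℝ ^ l` is not exact
-/

set_option autoImplicit false

open Topology Topology.Homotopy unitInterval Set

namespace Pool.Agent.J4.H99.QF

variable {A B B' : Type} [NormedAddCommGroup A] [InnerProductSpace ℝ A] [NormedAddCommGroup B]
  [NormedSpace ℝ B] [NormedAddCommGroup B'] [NormedSpace ℝ B']

/-- the configuration of the points `(x, 0)` and `(e, φ⁻¹ (i R, 0))`, `i ≥ 1` -/
noncomputable def cfg (φ : B ≃L[ℝ] ℝ × B') (e : A) {R : ℝ} (hR : 0 < R) (n : ℕ) (x : A) :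
    Conf ℤˣ (Mir A B) (n + 1) :=
  ⟨fun i => (if i = 0 then x else e, φ.symm ((i : ℕ) * R, 0)), by
    intro i j hij u h
    have h1 : φ.symm (((i : ℕ) : ℝ) * R, 0) = φ.symm (((j : ℕ) : ℝ) * R, 0) :=
      congrArg (fun z : Mir A B => z.2) h
    have h2 := congrArg Prod.fst (φ.symm.injective h1)
    have h3 : ((i : ℕ) : ℝ) = ((j : ℕ) : ℝ) := mul_right_cancel₀ hR.ne' h2
    exact hij (Fin.ext (by exact_mod_cast h3))⟩

theorem continuous_cfg (φ : B ≃L[ℝ] ℝ × B') (e : A) {R : ℝ} (hR : 0 < R) (n : ℕ) :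
    Continuous (cfg φ e hR n) := by
  refine continuous_induced_rng.2 (continuous_pi fun i => ?_)
  change Continuous fun x : A => ((if i = 0 then x else e, φ.symm ((i : ℕ) * R, 0)) : A × B)
  refine Continuous.prodMk ?_ continuous_const
  split_ifs
  · exact continuous_id
  · exact continuous_const

theorem jn_mem (φ : B ≃L[ℝ] ℝ × B') (e : A) {R : ℝ} (hR : 0 < R) (n : ℕ) {w : A × A × B'}
    (hw : w ≠ 0) (hwR : |‖w.2.1‖ - ‖w.1‖| < R) (i : Fin (n + 1)) (u : ℤˣ) :
    u • (cfg φ e hR n (j0 w)).1 i ≠ jn φ w := by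
  intro h
  have h1 : φ.symm (((i : ℕ) : ℝ) * R, 0) = φ.symm (‖w.2.1‖ - ‖w.1‖, w.2.2) :=
    congrArg (fun z : Mir A B => z.2) h
  have h2 := φ.symm.injective h1
  have h3 : ((i : ℕ) : ℝ) * R = ‖w.2.1‖ - ‖w.1‖ := congrArg Prod.fst h2
  have h4 : (0 : B') = w.2.2 := congrArg Prod.snd h2
  have hi : i = 0 := by
    by_contra hne
    have h5 : (1 : ℝ) ≤ ((i : ℕ) : ℝ) := by
      have : 1 ≤ (i : ℕ) := Nat.one_le_iff_ne_zero.2 fun e => hne (Fin.ext e)
      exact_mod_cast this
    have h6 : R ≤ ((i : ℕ) : ℝ) * R := by nlinarith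
    rw [h3] at h6
    exact absurd (le_abs_self (‖w.2.1‖ - ‖w.1‖)) (not_le.2 (by linarith))
  subst hi
  have h5 : ‖w.2.1‖ = ‖w.1‖ := by
    have : ((((0 : Fin (n + 1)) : ℕ)) : ℝ) = 0 := by simp
    rw [this, zero_mul] at h3
    linarith
  have h6 : ((u : ℤ) : ℝ) • (w.1 - w.2.1) = w.1 + w.2.1 := congrArg (fun z : Mir A B => z.1) h
  have key : w.1 = 0 → w.2.1 = 0 → False := fun e1 e2 =>
    hw (Prod.ext e1 (Prod.ext e2 h4.symm))
  rcases Int.units_eq_one_or u with hu | hu
  · rw [hu] at h6
    have h7 : (2 : ℝ) • w.2.1 = 0 := by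
      have : (2 : ℝ) • w.2.1 = (w.1 + w.2.1) - (w.1 - w.2.1) := by module
      rw [this, ← h6]
      simp
    have h8 : w.2.1 = 0 := by simpa using h7
    rw [h8, norm_zero] at h5
    exact key (norm_eq_zero.1 h5.symm) h8
  · rw [hu] at h6
    have h7 : (2 : ℝ) • w.1 = 0 := by
      have : (2 : ℝ) • w.1 = (w.1 + w.2.1) + (w.1 - w.2.1) := by module
      rw [this, ← h6]
      simp
    have h8 : w.1 = 0 := by simpa using h7
    rw [h8, norm_zero] at h5
    exact key h8 (norm_eq_zero.1 h5)

omit [NormedSpace ℝ B] in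
theorem orbit_td (x : Mir A B) : IsTotallyDisconnected {y : Mir A B | ∃ u : ℤˣ, y = u • x} := by
  have h1 : {y : Mir A B | ∃ u : ℤˣ, y = u • x} = range fun u : ℤˣ => u • x := by
    ext y
    simp only [mem_ofPred_eq, mem_range, eq_comm]
  have h2 : (range fun u : ℤˣ => u • x).Finite := finite_range _
  have h3 : ({y : A × B | ∃ u : ℤˣ, (y : Mir A B) = u • x}).Countable := by
    rw [← h1] at h2
    exact h2.countable
  exact h3.isTotallyDisconnected

theorem snoc_c {H V : Type} [Group H] [TopologicalSpace V] [MulAction H V] {n : ℕ}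
    (y : Conf H V n) (v : Fib y) (i : Fin n) : (y.snoc v).1 i.castSucc = y.1 i :=
  Fin.snoc_castSucc (α := fun _ => V) _ _ _

theorem snoc_l {H V : Type} [Group H] [TopologicalSpace V] [MulAction H V] {n : ℕ}
    (y : Conf H V n) (v : Fib y) : (y.snoc v).1 (Fin.last n) = v.1 :=
  Fin.snoc_last (α := fun _ => V) _ _

theorem main [FiniteDimensional ℝ A] [FiniteDimensional ℝ B'] (φ : B ≃L[ℝ] ℝ × B')
    (q : ℕ) (hdim : Module.finrank ℝ (A × A × B') = q + 2) (hA : 0 < Module.finrank ℝ A)
    (n : ℕ) (S : Type) [TopologicalSpace S] [MulAction ℤˣ S]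
    (hS : IsQuotientCoveringMap (Quotient.mk (MulAction.orbitRel ℤˣ S)) ℤˣ) :
    ∃ (y : Conf ℤˣ (Mir A B) (n + 1)) (v : Fib y), IsSmooth y ∧
      ∀ (s : Fin (n + 1) → S) (t : S),
      ¬ ExactSequence (incl s y) forget (incl_mk s y t v) (forget_mk s y t v) := by
  have hnt : Nontrivial A := Module.finrank_pos_iff.1 hA
  obtain ⟨e, he⟩ := exists_norm_eq A zero_le_one
  have he0 : e ≠ 0 := fun h => by simp [h] at he
  obtain ⟨lam, hlam, hess⟩ := exists_essential' (W := A × A × B') (m := q + 1) (Nat.succ_pos q) hdim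
    (e, 0, 0) (fun h => he0 (congrArg Prod.fst h))
  -- a bound
  obtain ⟨R, hR0, hR⟩ : ∃ R : ℝ, 0 < R ∧ ∀ z, |‖(lam z : A × A × B').2.1‖ -
      ‖(lam z : A × A × B').1‖| < R := by
    have hc : Continuous fun z => |‖(lam z : A × A × B').2.1‖ - ‖(lam z : A × A × B').1‖| := by
      have : Continuous fun z => (lam z : A × A × B') := continuous_subtype_val.comp lam.continuous
      fun_prop
    obtain ⟨C, hC⟩ := (isCompact_range hc).bddAbove
    refine ⟨max C 0 + 1, by positivity, fun z => ?_⟩
    have := hC ⟨z, rfl⟩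
    have h2 := le_max_left C 0
    simp only at this
    linarith
  have hlc : Continuous fun z => (lam z : A × A × B') := continuous_subtype_val.comp lam.continuous
  let v' : ∀ z, Fib (cfg φ e hR0 n (j0 (lam z : A × A × B'))) := fun z =>
    ⟨jn φ (lam z : A × A × B'), jn_mem φ e hR0 n (lam z).2 (hR z)⟩
  let Jf : (I^(Fin (q + 1))) → Conf ℤˣ (Mir A B) (n + 2) := fun z =>
    (cfg φ e hR0 n (j0 (lam z : A × A × B'))).snoc (v' z)
  have hj0 : Continuous fun z => j0 (lam z : A × A × B') := by unfold j0; fun_prop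
  have hJ0 : ∀ z, (Jf z).1 0 = ((j0 (lam z : A × A × B'), 0) : A × B) := by
    intro z
    have h1 : (Jf z).1 0 = (cfg φ e hR0 n (j0 (lam z : A × A × B'))).1 0 := snoc_c _ _ 0
    rw [h1]
    refine Prod.ext ?_ ?_
    · simp [cfg]
    · change φ.symm ((((0 : Fin (n + 1)) : ℕ) : ℝ) * R, 0) = 0
      simp
  have hJn : ∀ z, (Jf z).1 (Fin.last (n + 1)) = jn φ (lam z : A × A × B') := by
    intro z
    exact snoc_l _ _
  have hJc : Continuous Jf := by
    refine continuous_induced_rng.2 (continuous_pi fun i => ?_)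
    refine Fin.lastCases ?_ (fun i => ?_) i
    · change Continuous fun z => (Jf z).1 (Fin.last (n + 1))
      simp only [hJn]
      have h1 : Continuous fun z => ((lam z : A × A × B').1 + (lam z : A × A × B').2.1,
          φ.symm (‖(lam z : A × A × B').2.1‖ - ‖(lam z : A × A × B').1‖,
            (lam z : A × A × B').2.2)) := by
        refine Continuous.prodMk (by fun_prop) (φ.symm.continuous.comp (by fun_prop))
      exact h1
    · have h1 : (fun z => (Jf z).1 i.castSucc) = fun z =>
          (cfg φ e hR0 n (j0 (lam z : A × A × B'))).1 i := by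
        funext z
        exact snoc_c _ _ i
      change Continuous fun z => (Jf z).1 i.castSucc
      rw [h1]
      exact (continuous_apply i).comp ((Conf.continuous_val _ _ _).comp
        ((continuous_cfg φ e hR0 n).comp hj0))
  let J : C(I^(Fin (q + 1)), Conf ℤˣ (Mir A B) (n + 2)) := ⟨Jf, hJc⟩
  -- the base point
  let y := cfg (B := B) φ e hR0 n e
  have hv : ∀ (i : Fin (n + 1)) (u : ℤˣ), u • y.1 i ≠ jn φ ((e, 0, 0) : A × A × B') := by
    intro i u
    have h1 := jn_mem φ e hR0 n (w := ((e, 0, 0) : A × A × B'))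
      (fun h => he0 (congrArg Prod.fst h)) (by
        have h2 := hR (fun _ => 0)
        rw [hlam (fun _ => 0) ⟨0, Or.inl rfl⟩] at h2
        exact h2) i u
    have h3 : j0 ((e, 0, 0) : A × A × B') = e := by simp [j0]
    rw [h3] at h1
    exact h1
  let v : Fib y := ⟨jn φ ((e, 0, 0) : A × A × B'), hv⟩
  have hJb : ∀ z ∈ Cube.boundary (Fin (q + 1)), J z = y.snoc v := by
    intro z hz
    refine Subtype.ext (funext fun i => ?_)
    refine Fin.lastCases ?_ (fun i => ?_) i
    · change (Jf z).1 (Fin.last (n + 1)) = _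
      rw [hJn, snoc_l, hlam z hz]
    · rw [snoc_c]
      refine (snoc_c _ _ i).trans ?_
      rw [hlam z hz]
      have h3 : j0 ((e, 0, 0) : A × A × B') = e := by simp [j0]
      rw [h3]
  refine ⟨y, v, ?_, fun s t => ?_⟩
  · -- smoothness
    intro g hg
    funext i
    have h1 := congrArg (fun x : Conf ℤˣ (Mir A B) (n + 1) => (x.1 i).1) hg
    have h2 : ((g i : ℤ) : ℝ) • (if i = 0 then e else e) = (if i = 0 then e else e) := h1
    rw [ite_self] at h2
    rcases Int.units_eq_one_or (g i) with hu | hu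
    · exact hu
    · exfalso
      rw [hu] at h2
      have h3 : (2 : ℝ) • e = 0 := by
        have : (2 : ℝ) • e = e + e := by module
        rw [this]
        nth_rewrite 1 [← h2]
        simp
      exact he0 (by simpa using h3)
  refine not_exact hS y v s t q J hJb ?_ ?_ (orbit_td _)
  · -- the first part of the sphere is contractible
    refine ⟨⟨⟨⟨fun z => cfg φ e hR0 n ((1 - (z.1 : ℝ)) • j0 (lam z.2 : A × A × B') +
      (z.1 : ℝ) • e), ?_⟩, fun z => ?_, fun z => ?_⟩, fun τ z hz => ?_⟩⟩
    · refine (continuous_cfg φ e hR0 n).comp ?_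
      have h1 : Continuous fun z : I × (I^(Fin (q + 1))) => j0 (lam z.2 : A × A × B') :=
        hj0.comp continuous_snd
      fun_prop
    · refine Subtype.ext (funext fun i => ?_)
      change (cfg φ e hR0 n ((1 - ((0 : I) : ℝ)) • j0 (lam z : A × A × B') +
        ((0 : I) : ℝ) • e)).1 i = (Jf z).1 i.castSucc
      refine Eq.trans ?_ (snoc_c _ _ i).symm
      simp
    · change cfg φ e hR0 n ((1 - ((1 : I) : ℝ)) • j0 (lam z : A × A × B') +
        ((1 : I) : ℝ) • e) = cfg φ e hR0 n e
      simp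
    · change cfg φ e hR0 n ((1 - (τ : ℝ)) • j0 (lam z : A × A × B') + (τ : ℝ) • e) = (J z).init
      rw [hJb z hz]
      refine Subtype.ext (funext fun i => ?_)
      refine Eq.trans ?_ (snoc_c _ _ i).symm
      rw [hlam z hz]
      have h3 : j0 ((e, 0, 0) : A × A × B') = e := by simp [j0]
      have h4 : (1 - (τ : ℝ)) • e + (τ : ℝ) • e = e := by module
      rw [h3, h4]
  · -- the sphere does not come from the fibre
    intro J' hJJ' hJ'
    have hne : (0 : Fin (n + 2)) ≠ Fin.last (n + 1) := by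
      intro h
      have := congrArg Fin.val h
      simp at this
    let Th : C(Conf ℤˣ (Mir A B) (n + 2), {w : A × A × B' // w ≠ 0}) :=
      ⟨fun x => ⟨theta φ e (x.1 0) (x.1 (Fin.last (n + 1))), theta_ne φ he (x.2 _ _ hne)⟩, by
        refine Continuous.subtype_mk ?_ _
        exact continuous_theta φ e ((continuous_apply _).comp (Conf.continuous_val _ _ _))
          ((continuous_apply _).comp (Conf.continuous_val _ _ _))⟩
    have hTh : ∀ z, (Th (J z) : A × A × B') =
        theta φ e ((j0 (lam z : A × A × B'), 0) : A × B) (jn φ (lam z : A × A × B')) := by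
      intro z
      change theta φ e ((Jf z).1 0) ((Jf z).1 (Fin.last (n + 1))) = _
      rw [hJ0, hJn]
    have H1 : ContinuousMap.HomotopicWith lam (Th.comp J) CB := by
      refine ⟨⟨⟨⟨fun z => ⟨(1 - (z.1 : ℝ)) • (lam z.2 : A × A × B') +
        (z.1 : ℝ) • (Th (J z.2) : A × A × B'), ?_⟩, ?_⟩, fun z => ?_, fun z => ?_⟩,
        fun τ z hz z' hz' => ?_⟩⟩
      · rw [hTh]
        exact lin_ne φ he (lam z.2).2 z.1.2.1 z.1.2.2
      · refine Continuous.subtype_mk ?_ _
        have h1 : Continuous fun z : I × (I^(Fin (q + 1))) => (lam z.2 : A × A × B') :=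
          hlc.comp continuous_snd
        have h2 : Continuous fun z : I × (I^(Fin (q + 1))) => (Th (J z.2) : A × A × B') :=
          continuous_subtype_val.comp (Th.continuous.comp (J.continuous.comp continuous_snd))
        fun_prop
      · apply Subtype.ext
        simp
      · apply Subtype.ext
        simp
      · apply Subtype.ext
        change (1 - (τ : ℝ)) • (lam z : A × A × B') + (τ : ℝ) • (Th (J z) : A × A × B') =
          (1 - (τ : ℝ)) • (lam z' : A × A × B') + (τ : ℝ) • (Th (J z') : A × A × B')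
        rw [hlam z hz, hlam z' hz', hJb z hz, hJb z' hz']
    have H2 : ContinuousMap.HomotopicWith (Th.comp J) (Th.comp J') CB := by
      obtain ⟨K⟩ := hJJ'
      refine ⟨⟨⟨Th.comp K.toContinuousMap, fun z => ?_, fun z => ?_⟩, fun τ z hz z' hz' => ?_⟩⟩
      · change Th (K (0, z)) = Th (J z)
        rw [K.apply_zero]
      · change Th (K (1, z)) = Th (J' z)
        rw [K.apply_one]
      · change Th (K (τ, z)) = Th (K (τ, z'))
        rw [K.eq_fst τ hz, K.eq_fst τ hz', hJb z hz, hJb z' hz']
    have hJ'b : ∀ z ∈ Cube.boundary (Fin (q + 1)), J' z = y.snoc v := by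
      intro z hz
      obtain ⟨K⟩ := hJJ'
      rw [← K.fst_eq_snd hz]
      exact hJb z hz
    have hell : ∀ z, ell e (Th (J' z) : A × A × B') < 0 := by
      intro z
      refine ell_theta φ he ?_
      rw [hJ' z]
      simp [y, cfg]
    have hlin : ∀ (τ : ℝ) (w w' : A × A × B'), ell e ((1 - τ) • w + τ • w') =
        (1 - τ) * ell e w + τ * ell e w' := by
      intro τ w w'
      unfold ell
      simp only [Prod.fst_add, Prod.snd_add, Prod.smul_fst, Prod.smul_snd, inner_add_left,
        inner_smul_left, conj_trivial]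
      ring
    have H3 : ContinuousMap.HomotopicWith (Th.comp J')
        (ContinuousMap.const _ (Th (J' fun _ => 0))) CB := by
      refine ⟨⟨⟨⟨fun z => ⟨(1 - (z.1 : ℝ)) • (Th (J' z.2) : A × A × B') +
        (z.1 : ℝ) • (Th (J' fun _ => 0) : A × A × B'), ?_⟩, ?_⟩, fun z => ?_, fun z => ?_⟩,
        fun τ z hz z' hz' => ?_⟩⟩
      · intro h
        have h1 := hlin z.1 (Th (J' z.2) : A × A × B') (Th (J' fun _ => 0) : A × A × B')
        rw [h] at h1
        have h2 : ell e (0 : A × A × B') = 0 := by simp [ell]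
        rw [h2] at h1
        have h3 := hell z.2
        have h4 := hell fun _ => 0
        have h5 := z.1.2.1
        have h6 := z.1.2.2
        rcases eq_or_lt_of_le h5 with h7 | h7
        · rw [← h7] at h1
          linarith
        · nlinarith
      · refine Continuous.subtype_mk ?_ _
        have h2 : Continuous fun z : I × (I^(Fin (q + 1))) => (Th (J' z.2) : A × A × B') :=
          continuous_subtype_val.comp (Th.continuous.comp (J'.continuous.comp continuous_snd))
        fun_prop
      · apply Subtype.ext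
        simp
      · apply Subtype.ext
        simp
      · apply Subtype.ext
        change (1 - (τ : ℝ)) • (Th (J' z) : A × A × B') + _ =
          (1 - (τ : ℝ)) • (Th (J' z') : A × A × B') + _
        rw [hJ'b z hz, hJ'b z' hz']
    exact hess _ ((H1.trans H2).trans H3)

end Pool.Agent.J4.H99.QF
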