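import Pool.Agent.J4.H99.QF.Defs

/-!
# A model of the universal space of the group of order two

The space of all nonzero real sequences, with the topology of the product.
-/

set_option autoImplicit false

open Topology Topology.Homotopy unitInterval Set

namespace Pool.Agent.J4.H99.QF

/-- The space of all nonzero real sequences. -/
def SInf : Type := {x : ℕ → ℝ // x ≠ 0}

instance : TopologicalSpace SInf := inferInstanceAs (TopologicalSpace {x : ℕ → ℝ // x ≠ 0})

/-- The action of `±1`. -/
instance : MulAction ℤˣ SInf where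
  smul u x := ⟨((u : ℤ) : ℝ) • x.1, smul_ne_zero (by
    rcases Int.units_eq_one_or u with h | h <;> simp [h]) x.2⟩
  one_smul x := Subtype.ext (by change (((1 : ℤˣ) : ℤ) : ℝ) • x.1 = x.1; simp)
  mul_smul u v x := Subtype.ext (by
    change (((u * v : ℤˣ) : ℤ) : ℝ) • x.1 = ((u : ℤ) : ℝ) • (((v : ℤ) : ℝ) • x.1)
    rw [smul_smul]; simp)

theorem SInf.smul_val (u : ℤˣ) (x : SInf) : (u • x).1 = ((u : ℤ) : ℝ) • x.1 := rfl

/-- the shift -/
def shift (x : ℕ → ℝ) : ℕ → ℝ := fun n => Nat.casesOn n 0 fun k => x k

theorem shift_zero (x : ℕ → ℝ) : shift x 0 = 0 := rfl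

theorem shift_succ (x : ℕ → ℝ) (k : ℕ) : shift x (k + 1) = x k := rfl

theorem continuous_shift : Continuous shift := by
  refine continuous_pi fun n => ?_
  cases n with
  | zero => exact continuous_const
  | succ k => exact continuous_apply k

theorem shift_ne {x : ℕ → ℝ} (h : x ≠ 0) : shift x ≠ 0 := fun e =>
  h (funext fun k => congrFun e (k + 1))

theorem hom1 {x : ℕ → ℝ} (h : x ≠ 0) (t : ℝ) : (1 - t) • x + t • shift x ≠ 0 := by
  intro e
  by_cases ht : 1 - t = 0
  · have ht' : t = 1 := by linarith
    rw [ht'] at e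
    simp only [sub_self, zero_smul, one_smul, zero_add] at e
    exact shift_ne h e
  · refine h (funext fun k => ?_)
    induction k with
    | zero =>
      have h1 := congrFun e 0
      simp only [Pi.add_apply, Pi.smul_apply, shift_zero, smul_eq_mul, mul_zero, add_zero,
        Pi.zero_apply] at h1
      exact (mul_eq_zero.1 h1).resolve_left ht
    | succ k ih =>
      have h1 := congrFun e (k + 1)
      simp only [Pi.add_apply, Pi.smul_apply, shift_succ, smul_eq_mul, Pi.zero_apply] at h1
      rw [ih] at h1
      simp only [Pi.zero_apply, mul_zero, add_zero] at h1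
      exact (mul_eq_zero.1 h1).resolve_left ht

/-- the first basis vector -/
def e0 : ℕ → ℝ := fun n => Nat.casesOn n 1 fun _ => 0

theorem hom2 {x : ℕ → ℝ} (h : x ≠ 0) (t : ℝ) : (1 - t) • shift x + t • e0 ≠ 0 := by
  intro e
  have h1 := congrFun e 0
  simp only [Pi.add_apply, Pi.smul_apply, shift_zero, smul_eq_mul, mul_zero, zero_add,
    Pi.zero_apply] at h1
  have h2 : t = 0 := by simpa [e0] using h1
  rw [h2] at e
  simp only [sub_zero, zero_smul, one_smul, add_zero] at e
  exact shift_ne h e

theorem e0_ne : e0 ≠ 0 := fun h => one_ne_zero (congrFun h 0)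

theorem contractible : ContractibleSpace SInf := by
  rw [contractible_iff_id_nullhomotopic]
  refine ⟨⟨e0, e0_ne⟩, ?_⟩
  let sh : C(SInf, SInf) := ⟨fun x => ⟨shift x.1, shift_ne x.2⟩,
    (continuous_shift.comp continuous_subtype_val).subtype_mk _⟩
  have h1 : ContinuousMap.Homotopic (ContinuousMap.id SInf) sh := by
    refine ⟨⟨⟨fun z => ⟨(1 - (z.1 : ℝ)) • z.2.1 + (z.1 : ℝ) • shift z.2.1, hom1 z.2.2 _⟩, ?_⟩,
      fun x => ?_, fun x => ?_⟩⟩
    · refine Continuous.subtype_mk ?_ _
      have h2 : Continuous fun z : I × SInf => z.2.1 := continuous_subtype_val.comp continuous_snd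
      have h3 : Continuous fun z : I × SInf => shift z.2.1 := continuous_shift.comp h2
      fun_prop
    · apply Subtype.ext
      change (1 - ((0 : I) : ℝ)) • x.1 + ((0 : I) : ℝ) • shift x.1 = x.1
      simp
    · apply Subtype.ext
      change (1 - ((1 : I) : ℝ)) • x.1 + ((1 : I) : ℝ) • shift x.1 = shift x.1
      simp
  have h2 : ContinuousMap.Homotopic sh (ContinuousMap.const SInf ⟨e0, e0_ne⟩) := by
    refine ⟨⟨⟨fun z => ⟨(1 - (z.1 : ℝ)) • shift z.2.1 + (z.1 : ℝ) • e0, hom2 z.2.2 _⟩, ?_⟩,
      fun x => ?_, fun x => ?_⟩⟩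
    · refine Continuous.subtype_mk ?_ _
      have h2 : Continuous fun z : I × SInf => z.2.1 := continuous_subtype_val.comp continuous_snd
      have h3 : Continuous fun z : I × SInf => shift z.2.1 := continuous_shift.comp h2
      fun_prop
    · apply Subtype.ext
      change (1 - ((0 : I) : ℝ)) • shift x.1 + ((0 : I) : ℝ) • e0 = shift x.1
      simp
    · apply Subtype.ext
      change (1 - ((1 : I) : ℝ)) • shift x.1 + ((1 : I) : ℝ) • e0 = e0
      simp
  exact h1.trans h2

theorem isUniversal_SInf : IsUniversal ℤˣ SInf := by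
  refine ⟨contractible, ?_⟩
  exact {
    toIsQuotientMap := isQuotientMap_quotient_mk'
    continuous_const_smul := fun u => by
      refine Continuous.subtype_mk ?_ _
      exact continuous_subtype_val.const_smul (((u : ℤ) : ℝ))
    apply_eq_iff_mem_orbit := by
      intro a b
      rw [Quotient.eq]
      rfl
    disjoint := by
      intro x
      obtain ⟨i, hi⟩ := Function.ne_iff.1 x.2
      have hc : Continuous fun y : SInf => x.1 i * y.1 i :=
        continuous_const.mul ((continuous_apply i).comp continuous_subtype_val)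
      refine ⟨{y | 0 < x.1 i * y.1 i}, ?_, ?_⟩
      · refine (isOpen_lt continuous_const hc).mem_nhds ?_
        exact mul_self_pos.2 hi
      · rintro g ⟨_, ⟨y, hy, rfl⟩, hz⟩
        rcases Int.units_eq_one_or g with h | h
        · exact h
        · exfalso
          have h1 : 0 < x.1 i * (g • y).1 i := hz
          have h2 : 0 < x.1 i * y.1 i := hy
          rw [SInf.smul_val, h] at h1
          simp at h1
          linarith }

end Pool.Agent.J4.H99.QF
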